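import Pool.Agent.T2h39.DU6.Final

namespace Pool.Agent.Results.MP_28724c_co.DiagUpper6

/-- Every colouring of the edges of the complete graph on `n` vertices with two colours (the edges of
`G` are red, the edges of its complement are blue) contains a red `K_k` or a blue `K_l`. -/
def Arrows (n k l : ℕ) : Prop :=
  ∀ G : SimpleGraph (Fin n), (∃ s : Finset (Fin n), G.IsNClique k s) ∨
    (∃ s : Finset (Fin n), Gᶜ.IsNClique l s)

/-- The Ramsey number `R(k,l)`: the least positive `n` with `Arrows n k l`. -/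
noncomputable def R (k l : ℕ) : ℕ := sInf {n : ℕ | 0 < n ∧ Arrows n k l}

lemma fac_a : Real.exp (-(0.251673 : ℝ)) ≤ 3.11 / 4 := by
  have h := Real.sum_le_exp_of_nonneg (x := (0.251673 : ℝ)) (by norm_num) 8
  simp only [Finset.sum_range_succ, Finset.sum_range_zero, Nat.factorial] at h
  rw [Real.exp_neg, inv_le_comm₀ (Real.exp_pos _) (by norm_num)]
  refine le_trans ?_ h
  norm_num

lemma fac_b : Real.exp (-(0.4155999 : ℝ)) ≤ 0.66 := by
  have h := Real.sum_le_exp_of_nonneg (x := (0.4155999 : ℝ)) (by norm_num) 8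
  simp only [Finset.sum_range_succ, Finset.sum_range_zero, Nat.factorial] at h
  rw [Real.exp_neg, inv_le_comm₀ (Real.exp_pos _) (by norm_num)]
  refine le_trans ?_ h
  norm_num

lemma exp_le_pow {c q : ℝ} (h : Real.exp (-c) ≤ q) (l : ℕ) : Real.exp (-(c * l)) ≤ q ^ l := by
  have e : Real.exp (-(c * l)) = Real.exp (-c) ^ l := by
    rw [← Real.exp_nat_mul]; congr 1; ring
  rw [e]
  exact pow_le_pow_left₀ (Real.exp_pos _).le h l

/-- **Ramsey numbers.** For all sufficiently large `l` and all `k` with `l ≤ k ≤ 5000 l`,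
`R(k,l) < (3.11/4)^l * binom(k+l, l)`, and `R(k,l) < 0.66^l * binom(k+l, l)` if moreover
`50 l ≤ k ≤ 2500 l` (and the sets defining the Ramsey numbers are non-empty). On the diagonal:
`R(k,k) < 3.11 ^ k` for all large `k`, hence `limsup log R(k,k) / k ≤ log 3.11`. -/
theorem result :
    (∃ K : ℕ, ∀ k l : ℕ, K ≤ l → l ≤ k → k ≤ 5000 * l →
      (0 < R k l ∧ Arrows (R k l) k l) ∧
      (R k l : ℝ) < (3.11 / 4 : ℝ) ^ l * ((k + l).choose l : ℝ) ∧
      (50 * l ≤ k → k ≤ 2500 * l →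
        (R k l : ℝ) < (0.66 : ℝ) ^ l * ((k + l).choose l : ℝ))) ∧
    (∃ K : ℕ, ∀ k : ℕ, K ≤ k → (R k k : ℝ) < (3.11 : ℝ) ^ k) ∧
    Filter.limsup (fun k : ℕ => Real.log (R k k) / k) Filter.atTop ≤ Real.log 3.11 := by
  have hmain : ∃ K : ℕ, ∀ k l : ℕ, K ≤ l → l ≤ k → k ≤ 5000 * l →
      (0 < R k l ∧ Arrows (R k l) k l) ∧
      (R k l : ℝ) < (3.11 / 4 : ℝ) ^ l * ((k + l).choose l : ℝ) ∧
      (50 * l ≤ k → k ≤ 2500 * l →
        (R k l : ℝ) < (0.66 : ℝ) ^ l * ((k + l).choose l : ℝ)) := by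
    obtain ⟨C, hC, hb⟩ := Pool.Agent.T2h39.DU6.bound
    obtain ⟨K1, h1⟩ := Pool.Agent.T2h39.DU6.skew_of (by norm_num) hC hb
      Pool.Agent.T2h39.DU6.segA Pool.Agent.T2h39.DU6.segsA (a := 1) (b := 1) (a' := 5000) (b' := 1)
      (by norm_num) Pool.Agent.T2h39.DU6.chainA (c' := 0.251673) (by norm_num)
    obtain ⟨K2, h2⟩ := Pool.Agent.T2h39.DU6.skew_of (by norm_num) hC hb
      Pool.Agent.T2h39.DU6.segB Pool.Agent.T2h39.DU6.segsB (a := 50) (b := 1) (a' := 2500) (b' := 1)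
      (by norm_num) Pool.Agent.T2h39.DU6.chainB (c' := 0.4155999) (by norm_num)
    refine ⟨max K1 K2, fun k l hl hlk hkl => ?_⟩
    have hl1 : K1 ≤ l := le_trans (le_max_left _ _) hl
    have hl2 : K2 ≤ l := le_trans (le_max_right _ _) hl
    obtain ⟨g1, g2⟩ := h1 k l hl1 (by omega) (by omega)
    have hch : (0 : ℝ) ≤ ((k + l).choose l : ℝ) := Nat.cast_nonneg _
    refine ⟨g1, lt_of_lt_of_le g2 ?_, fun h50 h2500 => ?_⟩
    · exact mul_le_mul_of_nonneg_right (exp_le_pow fac_a l) hch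
    · obtain ⟨-, g3⟩ := h2 k l hl2 (by omega) (by omega)
      exact lt_of_lt_of_le g3 (mul_le_mul_of_nonneg_right (exp_le_pow fac_b l) hch)
  obtain ⟨K, hK⟩ := hmain
  have hdiag : ∀ k : ℕ, max K 1 ≤ k → (R k k : ℝ) < (3.11 : ℝ) ^ k := by
    intro k hk
    have hk1 : 1 ≤ k := le_trans (le_max_right _ _) hk
    obtain ⟨-, h2, -⟩ := hK k k (le_trans (le_max_left _ _) hk) le_rfl (by omega)
    have h3 : ((k + k).choose k : ℝ) ≤ 4 ^ k := by
      have h4 : (k + k).choose k ≤ 4 ^ k := by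
        calc (k + k).choose k ≤ 2 ^ (k + k) := Nat.choose_le_two_pow _ _
          _ = 4 ^ k := by rw [← two_mul, pow_mul]; norm_num
      exact_mod_cast h4
    calc (R k k : ℝ) < (3.11 / 4 : ℝ) ^ k * ((k + k).choose k : ℝ) := h2
      _ ≤ (3.11 / 4 : ℝ) ^ k * 4 ^ k := mul_le_mul_of_nonneg_left h3 (by positivity)
      _ = (3.11 : ℝ) ^ k := by rw [← mul_pow]; norm_num
  refine ⟨⟨K, hK⟩, ⟨max K 1, hdiag⟩, ?_⟩
  have hnn : ∀ᶠ k : ℕ in Filter.atTop, (0 : ℝ) ≤ Real.log (R k k) / k := by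
    refine Filter.Eventually.of_forall fun k => div_nonneg ?_ (Nat.cast_nonneg k)
    exact Real.log_natCast_nonneg _
  refine Filter.limsup_le_of_le ?_ ?_
  · exact Filter.IsBoundedUnder.isCoboundedUnder_le ⟨0, Filter.eventually_map.mpr hnn⟩
  · filter_upwards [Filter.eventually_ge_atTop (max K 1)] with k hk
    have hk1 : 1 ≤ k := le_trans (le_max_right _ _) hk
    obtain ⟨⟨h1, -⟩, -⟩ := hK k k (le_trans (le_max_left _ _) hk) le_rfl (by omega)
    have h2 := hdiag k hk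
    have hkpos : (0 : ℝ) < k := by exact_mod_cast hk1
    have hRpos : (0 : ℝ) < R k k := by exact_mod_cast h1
    rw [div_le_iff₀ hkpos, mul_comm, ← Real.log_pow]
    exact Real.log_le_log hRpos h2.le

end Pool.Agent.Results.MP_28724c_co.DiagUpper6
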