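import Pool.Agent.Z72.LD.Whole

/-!
# Diagonal Ramsey numbers of colourings of bounded Littlestone dimension

A colouring of the edges of the complete graph on `n` vertices is a graph `G` on `Fin n` (red edges)
together with its complement (blue edges).  The Littlestone dimension of `G` (of the class of its
neighbourhoods) is the largest depth of a binary tree of vertices all of whose branches are realised
by vertices: the mistake bound of the optimal learner who is shown vertices and has to tell
whether they are joined to an unknown vertex; it is also the Shelah rank of model theory which is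
finite for stable graphs.  `order k d` is the largest number of vertices of a colouring without
monochromatic `K_k` and with Littlestone dimension at most `d`; without the condition on the
dimension the largest number is `R(k,k) - 1`.

The order is determined asymptotically: `log (order k d) ∼ d log (k / d)` for `d → ∞`, `k / d → ∞`, and up to
constant factors for all `1 ≤ d ≤ k / 2`.  So the growth rate of the colourings of Littlestone dimension at
most `γ k` is `(1 + o(1)) γ log (1 / γ)` for `γ → 0`, and colourings with exponentially many vertices, in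
particular the extremal ones, have a Littlestone dimension of order `k`.

Upper bound: in the tree of types a set of vertices is split by one of its members in its
neighbours, with smaller cliques, and its other vertices, with smaller independent sets, and one
of the two parts has smaller rank.  Lower bound: a random graph of density about `(d / k) log (k / d)` has no
complete bipartite graph `K_{t,M}` with `t + log₂ M = d + 1` and `M` about `d²`, but a shattered tree of depth
`t + log₂ M` contains one.
-/

set_option autoImplicit false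

namespace Pool.Agent.Results.MP_28724c_co.LittlestoneDimension

open Pool.Agent.Z72.LD

/-- The binary tree `t` of vertices (its nodes are the lists of fewer than `D` bits) is shattered:
for every branch `b` some vertex `v` is adjacent exactly to those nodes `t (b.take i)` of the branch at
which the next bit `b[i]` is `true`. -/
def Shattered {n : ℕ} (G : SimpleGraph (Fin n)) (D : ℕ) (t : List Bool → Fin n) : Prop :=
  ∀ b : List Bool, b.length = D → ∃ v, ∀ i < D, (G.Adj v (t (b.take i)) ↔ b[i]? = some true)

/-- The Littlestone dimension of the class of the neighbourhoods of the vertices of `G` is at most `d`. -/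
def LittlestoneLe {n : ℕ} (G : SimpleGraph (Fin n)) (d : ℕ) : Prop :=
  ∀ (D : ℕ) (t : List Bool → Fin n), Shattered G D t → D ≤ d

/-- The Littlestone dimension is at least `D`. -/
def LittlestoneGe {n : ℕ} (G : SimpleGraph (Fin n)) (D : ℕ) : Prop := ∃ t : List Bool → Fin n, Shattered G D t

/-- The colouring of the edges of `K_n` with colour classes `G` and `Gᶜ` has no monochromatic
`K_k`. -/
def NoMono {n : ℕ} (G : SimpleGraph (Fin n)) (k : ℕ) : Prop :=
  G.CliqueFree k ∧ Gᶜ.CliqueFree k

/-- The largest number of vertices of a colouring without monochromatic `K_k` and with Littlestone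
dimension at most `d`. -/
noncomputable def order (k d : ℕ) : ℕ :=
  sSup {n : ℕ | ∃ G : SimpleGraph (Fin n), NoMono G k ∧ LittlestoneLe G d}

/-- The diagonal Ramsey number `R(k,k)`. -/
noncomputable def ramsey (k : ℕ) : ℕ :=
  sInf {n : ℕ | ∀ G : SimpleGraph (Fin n), ¬ NoMono G k}

lemma ge_iff {n : ℕ} (G : SimpleGraph (Fin n)) (D : ℕ) : LittlestoneGe G D ↔ RGe G D Set.univ := by
  rw [← shatIn_iff]
  unfold LittlestoneGe Shattered ShatIn
  simp

lemma le_iff {n : ℕ} (G : SimpleGraph (Fin n)) (d : ℕ) : LittlestoneLe G d ↔ ¬ RGe G (d + 1) Set.univ := by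
  rw [← ge_iff]
  constructor
  · rintro h ⟨t, ht⟩
    have := h _ t ht
    omega
  · intro h D t ht
    by_contra hD
    exact h ((ge_iff G _).2 (RGe.le G _ (by omega) ((ge_iff G D).1 ⟨t, ht⟩)))

lemma set_eq (k d : ℕ) : {n : ℕ | ∃ G : SimpleGraph (Fin n), NoMono G k ∧ LittlestoneLe G d} = Adm k d := by
  ext n
  unfold Adm NoMono
  simp only [Set.mem_setOf_eq, le_iff, and_assoc]

lemma order_eq (k d : ℕ) : order k d = ord k d := by
  unfold order ord
  rw [set_eq]

theorem ramsey_eq (k : ℕ) : ramsey k = Pool.Agent.H818R2.Ram.R k k := by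
  unfold ramsey Pool.Agent.H818R2.Ram.R Pool.Agent.H818R2.Ram.Arrows
  congr 1
  ext n
  simp only [Set.mem_setOf_eq]
  apply forall_congr'
  intro G
  unfold NoMono SimpleGraph.CliqueFree
  constructor
  · intro h
    by_contra hcon
    push Not at hcon
    exact h hcon
  · rintro (⟨s, hs⟩ | ⟨s, hs⟩) ⟨h1, h2⟩
    · exact h1 s hs
    · exact h2 s hs

/-- **Main result.** -/
theorem result :
    -- (1) the largest number of vertices exists and is at most the number of nonempty sets with at
    -- most `d + 1` elements in a set with `2 k - 2` elements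
    (∀ k d : ℕ, 1 ≤ k → IsGreatest {n : ℕ | ∃ G : SimpleGraph (Fin n), NoMono G k ∧ LittlestoneLe G d} (order k d) ∧
      order k d ≤ ∑ i ∈ Finset.Icc 1 (d + 1), (2 * (k - 1)).choose i) ∧
    -- (2) `log (order k d) ∼ d log (k / d)` for `d → ∞`, `k / d → ∞`, with an error term
    (∀ d k : ℕ, 1 ≤ d → 16 * d ≤ k → |Real.log (order k d) - d * Real.log ((k : ℝ) / d)| ≤
      10 * (d * Real.log (Real.log ((k : ℝ) / d)) + Real.log (d + 1) * Real.log ((k : ℝ) / d))) ∧
    -- (3) the order of `log (order k d)` in the whole range `1 ≤ d ≤ k / 2`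
    (∃ c : ℝ, 0 < c ∧ ∀ d k : ℕ, 1 ≤ d → 2 * d ≤ k → 3 ≤ k →
      c * (d * Real.log (2 * k / d)) ≤ Real.log (order k d) ∧ Real.log (order k d) ≤ 4 * (d * Real.log (2 * k / d))) ∧
    -- (4) the growth rate of the colourings of Littlestone dimension at most `γ k` is
    -- `γ log (1 / γ)` up to a multiple of `γ log log (1 / γ)`
    (∀ γ : ℝ, 0 < γ → γ ≤ 1 / 16 → ∃ K : ℕ, ∀ k : ℕ, K ≤ k →
      |Real.log (order k ⌊γ * k⌋₊) / k - γ * Real.log (1 / γ)| ≤ 11 * (γ * Real.log (Real.log (1 / γ)))) ∧
    -- (5) colourings without monochromatic `K_k` on at least `exp (θ k)` vertices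
    (∀ (θ : ℝ) (n k : ℕ) (G : SimpleGraph (Fin n)), 0 < θ → θ ≤ 1 → NoMono G k → Real.exp (θ * k) ≤ n →
      LittlestoneGe G ⌊θ * k / (10 * Real.log (2 / θ))⌋₊) ∧
    -- (6) those on at least `2 ^ (k / 2)` vertices
    (∀ (n k : ℕ) (G : SimpleGraph (Fin n)), NoMono G k → (2 : ℝ) ^ ((k : ℝ) / 2) ≤ n → LittlestoneGe G (k / 13)) ∧
    -- (7) the extremal colourings, those on `R(k,k) - 1` vertices
    (∀ (n k : ℕ) (G : SimpleGraph (Fin n)), 300 ≤ k → n + 1 = ramsey k → NoMono G k →
      LittlestoneGe G (k / 13) ∧ LittlestoneLe G (2 * k)) := by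
  refine ⟨fun k d hk => ⟨⟨?_, ?_⟩, ?_⟩, ?_, ?_, ?_, ?_, ?_, ?_⟩
  · rw [set_eq, order_eq]
    exact ord_mem hk d
  · intro n hn
    rw [set_eq] at hn
    rw [order_eq]
    exact le_ord hn
  · rw [order_eq]
    exact adm_le (ord_mem hk d)
  · intro d k hd hk
    rw [order_eq]
    exact (ord_near d k hd hk).2
  · obtain ⟨c, hc, h⟩ := whole
    refine ⟨c, hc, fun d k hd hdk hk => ?_⟩
    rw [order_eq]
    exact h d k hd hdk hk
  · intro γ h1 h2
    obtain ⟨K, hK⟩ := rate γ h1 h2
    refine ⟨K, fun k hk => ?_⟩
    rw [order_eq]
    exact hK k hk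
  · intro θ n k G h1 h2 h3 h4
    rw [ge_iff]
    exact deep h3.1 h3.2 θ h1 h2 h4
  · intro n k G h1 h2
    rw [ge_iff]
    exact sqrt_two h1.1 h1.2 h2
  · intro n k G hk hn h1
    rw [ramsey_eq] at hn
    obtain ⟨h2, h3⟩ := extremal hk hn h1.1 h1.2
    refine ⟨(ge_iff G _).2 h2, ?_⟩
    rw [le_iff]
    exact fun h => h3 (RGe.pred G _ _ h)

end Pool.Agent.Results.MP_28724c_co.LittlestoneDimension
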