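import Pool.Agent.T2h52.SR.Asym
import Pool.Agent.T2h52.SR.Boost
import Pool.Agent.T2h52.SR.Recur
import Pool.Agent.T2h52.SR.Orth
import Pool.Agent.T2h52.SR.Gram

/-!
# Diagonal Ramsey numbers of colourings of given sign-rank

A two-colouring of the edges of the complete graph on `Fin n` is given by the graph `G` of its red
edges; `NoMono G k` says that it has no monochromatic `K_k`. `SignRankLE G r`: the colour of the pair
`x, y` is the sign of the entry `(x, y)` of a real matrix of rank at most `r`, whose diagonal is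
arbitrary (equivalently, the unbounded-error communication complexity of the colouring is `log₂ r` up
to an additive constant). Every colouring of `n` vertices has sign-rank at most `n`.

Upper bound. By Forster's theorem (starting files) the vectors can be put in a position in which
the mean square of the inner products between two large disjoint sets `X`, `Y` of vertices is at least
`1 / (2 r)`. Weighting by `exp (λ ⟨u, g⟩)`, `g` a Gaussian vector and `λ² = O(√r log k)`, gives subsets
of `X`, `Y` which contain a fraction `exp (-O(√r log k))` of them and between which all but a fraction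
`1 / (8 k)` of the pairs have the same colour. Iterate `2 log₂ k` times.

Lower bound. Random sign vectors in dimension `r`; red means a positive inner product.
-/

set_option autoImplicit false

namespace Pool.Agent.Results.MP_28724c_co.SignRankGrowth

open Filter Topology

/-- The colouring with colour classes `G` and `Gᶜ` has no monochromatic `K_k`. -/
def NoMono {n : ℕ} (G : SimpleGraph (Fin n)) (k : ℕ) : Prop :=
  G.CliqueFree k ∧ Gᶜ.CliqueFree k

/-- The colouring `G` has sign-rank at most `r`: there is a real matrix `(a x ⬝ b y)` of rank at most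
`r` whose entry at `(x, y)`, `x ≠ y`, is positive if the pair `x, y` is red (an edge of `G`) and
negative if it is blue. Nothing is assumed about the diagonal. -/
def SignRankLE {n : ℕ} (G : SimpleGraph (Fin n)) (r : ℕ) : Prop :=
  ∃ a b : Fin n → Fin r → ℝ, ∀ x y, x ≠ y →
    (G.Adj x y → 0 < ∑ i, a x i * b y i) ∧ (¬ G.Adj x y → ∑ i, a x i * b y i < 0)

/-- `G` is given by the signs of the inner products of vectors in `{-1, 0, 1}^r`; none of these
inner products is zero. -/
def SignVectors {n : ℕ} (G : SimpleGraph (Fin n)) (r : ℕ) : Prop :=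
  ∃ z : Fin n → Fin r → ℤ, (∀ x i, z x i = 1 ∨ z x i = -1 ∨ z x i = 0) ∧ ∀ x y, x ≠ y →
    (G.Adj x y → 0 < ∑ i, z x i * z y i) ∧ (¬ G.Adj x y → ∑ i, z x i * z y i < 0)

/-- The diagonal Ramsey number `R(k,k)`. -/
noncomputable def ramsey (k : ℕ) : ℕ := sInf {n : ℕ | ∀ G : SimpleGraph (Fin n), ¬ NoMono G k}

/-- The largest number of vertices of a colouring without monochromatic `K_k` of sign-rank at most
`r`. -/
noncomputable def srOrder (k r : ℕ) : ℕ :=
  sSup {n : ℕ | ∃ G : SimpleGraph (Fin n), NoMono G k ∧ SignRankLE G r}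

open Pool.Agent.T2h52.SR in
/-- **Main result.** -/
theorem result :
    -- (0) every colouring of `n` vertices has sign-rank at most `n`; colourings given by sign
    -- vectors in dimension `r` have sign-rank at most `r`
    (∀ (n : ℕ) (G : SimpleGraph (Fin n)), SignRankLE G n) ∧
    (∀ (n r : ℕ) (G : SimpleGraph (Fin n)), SignVectors G r → SignRankLE G r) ∧
    -- (1) upper bound: `log n ≤ C √r (log k)²`
    (∃ C : ℝ, 0 < C ∧ ∀ (n k r : ℕ) (G : SimpleGraph (Fin n)), 2 ≤ k → 1 ≤ r → NoMono G k →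
      SignRankLE G r → Real.log n ≤ C * (Real.sqrt r * Real.log k ^ 2)) ∧
    -- (2) lower bound for all `r ≤ k²`: `log n ≥ c √r`, with vectors in `{-1, 0, 1}^r`
    (∃ c : ℝ, 0 < c ∧ ∀ k r : ℕ, 3 ≤ k → 1 ≤ r → r ≤ k ^ 2 →
      ∃ (n : ℕ) (G : SimpleGraph (Fin n)), NoMono G k ∧ SignVectors G r ∧
        c * Real.sqrt r ≤ Real.log n) ∧
    -- (3) hence for sign-rank at most `k ^ θ`, `0 < θ ≤ 2`, the logarithm of the largest number of
    -- vertices is `k ^ (θ / 2 + o(1))`
    (∀ θ : ℝ, 0 < θ → θ ≤ 2 → Tendsto (fun k : ℕ =>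
      Real.log (Real.log (srOrder k ⌊(k : ℝ) ^ θ⌋₊)) / Real.log k) atTop (𝓝 (θ / 2))) ∧
    -- (4) the threshold: the growth rate is zero for sign-rank `o(k² / (log k)⁴)`,
    (∀ ε : ℝ, 0 < ε → ∃ δ : ℝ, 0 < δ ∧ ∀ (n k r : ℕ) (G : SimpleGraph (Fin n)), 2 ≤ k →
      NoMono G k → SignRankLE G r → (r : ℝ) ≤ δ * k ^ 2 / Real.log k ^ 4 →
        Real.log n ≤ ε * k) ∧
    -- and positive, at least `c √ε`, for sign-rank `⌊ε k²⌋`
    (∃ c : ℝ, 0 < c ∧ ∀ ε : ℝ, 0 < ε → ε ≤ 1 → ∀ k : ℕ, 3 ≤ k → 1 ≤ ε * k ^ 2 →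
      ∃ (n : ℕ) (G : SimpleGraph (Fin n)), NoMono G k ∧ SignVectors G ⌊ε * k ^ 2⌋₊ ∧
        c * Real.sqrt ε * k ≤ Real.log n) ∧
    -- (5) every colouring with at least `exp (θ k)` vertices and no monochromatic `K_k` has
    -- sign-rank at least `c θ² k² / (log k)⁴`
    (∃ c : ℝ, 0 < c ∧ ∀ (n k r : ℕ) (G : SimpleGraph (Fin n)) (θ : ℝ), 2 ≤ k → 0 < θ →
      NoMono G k → Real.exp (θ * k) ≤ n → SignRankLE G r →
        c * θ ^ 2 * (k : ℝ) ^ 2 / Real.log k ^ 4 ≤ r) ∧
    -- (6) and so has every extremal colouring (on `R(k,k) - 1` vertices)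
    (∃ c : ℝ, 0 < c ∧ ∀ (n k r : ℕ) (G : SimpleGraph (Fin n)), 3 ≤ k → n + 1 = ramsey k →
      NoMono G k → SignRankLE G r → c * (k : ℝ) ^ 2 / Real.log k ^ 4 ≤ r) := by
  have hU : T_UPPER := upper_of t_BOOST t_RECUR
  have hL : T_LOWER := lower_of (count_of t_ORTH t_GRAM)
  exact ⟨fun n G => all_signRank G, fun n r G h => Pool.Agent.T2h52.SR.SignVectors.signRankLE h,
    upper hU, lower hL, exponent hU hL, zero_growth hU, positive_growth hL, large_rank hU,
    extremal_rank hU hL⟩

end Pool.Agent.Results.MP_28724c_co.SignRankGrowth
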