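import Pool.Agent.T2h61.SP.Final

/-!
# Diagonal Ramsey numbers of unit ball graphs in all dimensions

A colouring of the edges of the complete graph on `Fin n` is a graph `G` (red) together with its
complement (blue). It has dimension at most `d` if `G` is a unit ball graph in dimension `d`: the
vertices are points of `ℝ ^ d` and a pair is red if and only if its distance is at most `1`. (The
least such `d` is called the sphericity of `G`.) Every colouring of `K_n` has dimension at most `n`.
As `d` grows the colourings without monochromatic `K_k` of dimension at most `d` thus run through all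
colourings without monochromatic `K_k`. The theorem gives the order of magnitude of the logarithm of
the largest number of their vertices for all `k` and all `d`. The lower bounds hold even for Hamming
ball graphs, whose vertices have labels with `d` bits, a pair being red if and only if its labels
differ in at most `r` places.

Proof of the upper bound: a process in the spirit of Erdős and Szekeres puts many vertices into a ball
of squared radius `1 / 2 + 1 / (2 j)` (each red step shrinks the ball), random products of half space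
weights then see few blue pairs (even moments of the inner products of unit vectors), and a weighted
form of the Erdős-Szemerédi theorem on sparse colourings ends the proof. Lower bound: random labels
with threshold `s √d` for the inner product; by the two-point inequality every set of
`exp (- s √d / 8) 2 ^ d` labels has between `exp (- 39 s²) / 4` and one half of red pairs, and the
method of Kleitman and Winston counts the monochromatic sets.
-/

set_option autoImplicit false

namespace Pool.Agent.Results.MP_28724c_co.SphericityGrowth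

open Real

/-- The colouring with colour classes `G` and `Gᶜ` has no monochromatic `K_k`. -/
def NoMono {n : ℕ} (G : SimpleGraph (Fin n)) (k : ℕ) : Prop :=
  G.CliqueFree k ∧ Gᶜ.CliqueFree k

/-- `G` is a unit ball graph in dimension `d`: its vertices are points of `ℝ ^ d` and two of them are
adjacent if and only if their distance is at most `1`. -/
def UnitBallGraph {n : ℕ} (G : SimpleGraph (Fin n)) (d : ℕ) : Prop :=
  ∃ x : Fin n → EuclideanSpace ℝ (Fin d), ∀ u v, u ≠ v → (G.Adj u v ↔ dist (x u) (x v) ≤ 1)

/-- `G` is a Hamming ball graph in dimension `d`: its vertices have labels with `d` bits, and for some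
`r` two vertices are adjacent if and only if their labels differ in at most `r` bits. -/
def HammingBallGraph {n : ℕ} (G : SimpleGraph (Fin n)) (d : ℕ) : Prop :=
  ∃ (x : Fin n → Fin d → Bool) (r : ℕ), ∀ u v, u ≠ v → (G.Adj u v ↔ hammingDist (x u) (x v) ≤ r)

/-- The largest number of vertices of a colouring without monochromatic `K_k` given by a unit ball
graph in dimension `d`. -/
noncomputable def ballOrder (k d : ℕ) : ℕ :=
  sSup {n : ℕ | ∃ G : SimpleGraph (Fin n), NoMono G k ∧ UnitBallGraph G d}

/-- The largest number of vertices of a colouring without monochromatic `K_k` given by a Hamming ball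
graph in dimension `d`. -/
noncomputable def hamOrder (k d : ℕ) : ℕ :=
  sSup {n : ℕ | ∃ G : SimpleGraph (Fin n), NoMono G k ∧ HammingBallGraph G d}

/-- The diagonal Ramsey number `R(k,k)`. -/
noncomputable def ramsey (k : ℕ) : ℕ := sInf {n : ℕ | ∀ G : SimpleGraph (Fin n), ¬ NoMono G k}

/-- The order of magnitude: the smaller one of `k` and `√(d ℓ) + ℓ`, `ℓ = log (2 + k ^ 2 / d)`. -/
noncomputable def magnitude (k d : ℕ) : ℝ :=
  min (k : ℝ) (√(d * log (2 + (k : ℝ) ^ 2 / d)) + log (2 + (k : ℝ) ^ 2 / d))

/-- **Main result.** -/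
theorem result :
    -- (1) The order of magnitude for all `k` and all dimensions `d`.
    (∃ c C : ℝ, 0 < c ∧ 0 < C ∧ ∀ d k : ℕ, 1 ≤ d → 3 ≤ k →
      c * magnitude k d ≤ log (hamOrder k d) ∧ log (hamOrder k d) ≤ log (ballOrder k d) ∧
        log (ballOrder k d) ≤ C * magnitude k d) ∧
    -- (2) The growth rate in dimension `ε k ^ 2` is `√(ε log (2 / ε))` up to a constant factor.
    (∃ c C : ℝ, 0 < c ∧ 0 < C ∧ ∀ ε : ℝ, 0 < ε → ε ≤ 1 → ∀ k : ℕ, 3 ≤ k →
      log (2 / ε) + 1 ≤ ε * k ^ 2 →
        c * √(ε * log (2 / ε)) ≤ log (hamOrder k ⌊ε * k ^ 2⌋₊) / k ∧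
        log (ballOrder k ⌊ε * k ^ 2⌋₊) / k ≤ C * √(ε * log (2 / ε))) ∧
    -- (3) So a colouring without monochromatic `K_k` on at least `exp (θ k)` vertices has dimension
    -- at least `c θ ^ 2 k ^ 2 / log (2 / θ)`,
    (∃ c : ℝ, 0 < c ∧ ∀ θ : ℝ, 0 < θ → θ ≤ 1 → ∃ K : ℕ, ∀ k : ℕ, K ≤ k →
      ∀ (n d : ℕ) (G : SimpleGraph (Fin n)), NoMono G k → UnitBallGraph G d → exp (θ * k) ≤ n →
        c * θ ^ 2 / log (2 / θ) * k ^ 2 ≤ d) ∧
    -- and this order of magnitude is attained.
    (∃ C θ₀ : ℝ, 0 < C ∧ 0 < θ₀ ∧ ∀ θ : ℝ, 0 < θ → θ ≤ θ₀ → ∃ K : ℕ, ∀ k : ℕ, K ≤ k →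
      ∃ (n d : ℕ) (G : SimpleGraph (Fin n)), NoMono G k ∧ HammingBallGraph G d ∧
        exp (θ * k) ≤ n ∧ (d : ℝ) ≤ C * θ ^ 2 / log (2 / θ) * k ^ 2) ∧
    -- (4) Every colouring of `K_n` has dimension at most `n`; in dimension at least `R(k,k) - 1` the
    -- largest number of vertices is `R(k,k) - 1`,
    (∀ (n : ℕ) (G : SimpleGraph (Fin n)), UnitBallGraph G n) ∧
    (∀ k d : ℕ, 1 ≤ k → ramsey k ≤ d + 1 → ballOrder k d + 1 = ramsey k) ∧
    -- and the extremal colourings, on `R(k,k) - 1` vertices, have dimension at least `c k ^ 2`.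
    (∃ c : ℝ, 0 < c ∧ ∀ k : ℕ, 3 ≤ k → ∀ (n d : ℕ) (G : SimpleGraph (Fin n)), NoMono G k →
      n + 1 = ramsey k → UnitBallGraph G d → c * k ^ 2 ≤ d) := by
  refine ⟨Pool.Agent.T2h61.SP.two_sided, ?_, Pool.Agent.T2h61.SP.needed,
    Pool.Agent.T2h61.SP.enough, fun n G => Pool.Agent.T2h61.SP.ballGraph_all G,
    fun k d hk hd => Pool.Agent.T2h61.SP.ballOrder_eq k d hk hd, Pool.Agent.T2h61.SP.extremal⟩
  obtain ⟨c, C, hc, hC, h⟩ := Pool.Agent.T2h61.SP.rates
  refine ⟨c, C, hc, hC, fun ε h0 h1 k hk hε => ?_⟩
  obtain ⟨h2, h3⟩ := h ε h0 h1 k hk hε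
  have hk0 : (0 : ℝ) < k := by
    have : 0 < k := by omega
    exact_mod_cast this
  exact ⟨(le_div_iff₀ hk0).2 h2, (div_le_iff₀ hk0).2 h3⟩

end Pool.Agent.Results.MP_28724c_co.SphericityGrowth
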